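import Pool.Agent.Helper74.HG.GoalsG

/-! Packet HG-PIG (MP_504089_ag): Poincare series and zeta function. -/

namespace Pool.Agent.Helper82.HG.PIG

open Pool.Agent.Helper74.HG Polynomial

/-- reduction to lowest terms -/
theorem red (S : PowerSeries ℂ) (A B : ℂ[X]) (hB : B ≠ 0) (h : (B : PowerSeries ℂ) * S = A)
    (T₀ : ℂ) (m : ℕ) (hd : (X - C T₀) ^ m ∣ B) (hA : A.eval T₀ ≠ 0) : PoleO S T₀ m := by
  set g := EuclideanDomain.gcd A B with hg
  obtain ⟨A', hA'⟩ := EuclideanDomain.gcd_dvd_left A B
  obtain ⟨B', hB'⟩ := EuclideanDomain.gcd_dvd_right A B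
  rw [← hg] at hA' hB'
  have hg0 : g ≠ 0 := by
    intro h0
    rw [h0, zero_mul] at hB'
    exact hB hB'
  have hcop : IsCoprime A' B' := by
    refine ⟨EuclideanDomain.gcdA A B, EuclideanDomain.gcdB A B, ?_⟩
    have h1 := EuclideanDomain.gcd_eq_gcd_ab A B
    rw [← hg] at h1
    refine mul_left_cancel₀ hg0 ?_
    linear_combination (-1 : ℂ[X]) * h1 - EuclideanDomain.gcdA A B * hA' -
      EuclideanDomain.gcdB A B * hB'
  refine ⟨A', B', hcop, ?_, ?_, ?_⟩
  · rintro rfl
    rw [mul_zero] at hB'
    exact hB hB'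
  · have hg0' : (g : PowerSeries ℂ) ≠ 0 := by
      rw [Ne, Polynomial.coe_eq_zero_iff]
      exact hg0
    refine mul_left_cancel₀ hg0' ?_
    rw [← mul_assoc, ← Polynomial.coe_mul, ← Polynomial.coe_mul, ← hB', ← hA', h]
  · have hc : IsCoprime ((X - C T₀) ^ m) g := by
      refine IsCoprime.pow_left ?_
      refine ((irreducible_X_sub_C T₀).coprime_iff_not_dvd).2 fun hdvd => hA ?_
      rw [← IsRoot.def, ← dvd_iff_isRoot]
      rw [hA']
      exact hdvd.mul_right A'
    rw [hB'] at hd
    exact hc.dvd_of_dvd_mul_left hd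

theorem eval_zero_ne (S : PowerSeries ℂ) (A B : ℂ[X]) (h : (B : PowerSeries ℂ) * S = A)
    (hcop : IsCoprime A B) : B.eval 0 ≠ 0 := by
  intro h0
  have h1 : PowerSeries.constantCoeff (A : PowerSeries ℂ) = 0 := by
    rw [← h, map_mul]
    have : PowerSeries.constantCoeff (B : PowerSeries ℂ) = B.eval 0 := by
      rw [← PowerSeries.coeff_zero_eq_constantCoeff_apply, Polynomial.coeff_coe,
        Polynomial.coeff_zero_eq_eval_zero]
    rw [this, h0, zero_mul]
  have h2 : A.eval 0 = 0 := by
    rwa [← PowerSeries.coeff_zero_eq_constantCoeff_apply, Polynomial.coeff_coe,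
      Polynomial.coeff_zero_eq_eval_zero] at h1
  obtain ⟨u, v, huv⟩ := hcop
  have h3 := congrArg (Polynomial.eval 0) huv
  rw [eval_add, eval_mul, eval_mul, h0, h2, mul_zero, mul_zero, add_zero, eval_one] at h3
  exact zero_ne_one h3

theorem eval_ne {A B : ℂ[X]} (hcop : IsCoprime A B) {T₀ : ℂ} (hB : B.eval T₀ = 0) :
    A.eval T₀ ≠ 0 := by
  intro hA
  obtain ⟨u, v, huv⟩ := hcop
  have h3 := congrArg (Polynomial.eval T₀) huv
  rw [eval_add, eval_mul, eval_mul, hA, hB, mul_zero, mul_zero, add_zero, eval_one] at h3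
  exact zero_ne_one h3

theorem t : PIG := by
  refine ⟨?_, ?_⟩
  · intro σ _ f p _
    have h0 : sol f p 0 = 1 := by
      unfold sol
      haveI : Subsingleton (ZMod (p ^ 0)) := by
        rw [pow_zero]; infer_instance
      haveI : Subsingleton (σ → ZMod (p ^ 0)) := inferInstance
      have : {x : σ → ZMod (p ^ 0) | MvPolynomial.aeval x f = 0} = {0} := by
        ext x
        simp only [Set.mem_setOf_eq, Set.mem_singleton_iff]
        exact ⟨fun _ => Subsingleton.elim _ _, fun _ => Subsingleton.elim _ _⟩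
      rw [this, Set.ncard_singleton]
    ext m
    rw [map_sub, sub_mul, one_mul, map_sub]
    cases m with
    | zero =>
      rw [PowerSeries.coeff_zero_X_mul, PowerSeries.coeff_zero_X_mul, sub_zero,
        PowerSeries.coeff_zero_one, poin, PowerSeries.coeff_mk, h0]
      simp
    | succ m =>
      rw [PowerSeries.coeff_succ_X_mul, PowerSeries.coeff_succ_X_mul, PowerSeries.coeff_one,
        if_neg (Nat.succ_ne_zero m), igu, poin, PowerSeries.coeff_mk, PowerSeries.coeff_mk,
        PowerSeries.coeff_mk]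
      ring
  · intro S S' h T₀ m hm
    refine ⟨?_, ?_⟩
    · rintro ⟨A, B, hcop, hB, hS, hd⟩
      have hBT : B.eval T₀ = 0 := by
        rw [← IsRoot.def, ← dvd_iff_isRoot]
        exact (dvd_pow_self _ (by omega)).trans hd
      have hT₀ : T₀ ≠ 0 := by
        rintro rfl
        exact eval_zero_ne S' A B hS hcop hBT
      refine red S (B - X * A) ((1 - X) * B) ?_ ?_ T₀ m (hd.mul_left _) ?_
      · refine mul_ne_zero ?_ hB
        intro h1
        have := congrArg (Polynomial.eval 0) h1
        simp at this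
      · have h2 : (1 - PowerSeries.X) * S = 1 - PowerSeries.X * S' := by
          rw [h]; ring
        rw [Polynomial.coe_mul, Polynomial.coe_sub, Polynomial.coe_sub, Polynomial.coe_mul,
          Polynomial.coe_one, Polynomial.coe_X, ← hS]
        linear_combination (B : PowerSeries ℂ) * h2
      · rw [eval_sub, eval_mul, eval_X, hBT, zero_sub, neg_ne_zero]
        exact mul_ne_zero hT₀ (eval_ne hcop hBT)
    · rintro hT1 ⟨A, B, hcop, hB, hS, hd⟩
      have hBT : B.eval T₀ = 0 := by
        rw [← IsRoot.def, ← dvd_iff_isRoot]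
        exact (dvd_pow_self _ (by omega)).trans hd
      have hT₀ : T₀ ≠ 0 := by
        rintro rfl
        exact eval_zero_ne S A B hS hcop hBT
      have h2 : ((B - (1 - X) * A : ℂ[X]) : PowerSeries ℂ) =
          PowerSeries.X * ((B : PowerSeries ℂ) * S') := by
        rw [Polynomial.coe_sub, Polynomial.coe_mul, Polynomial.coe_sub, Polynomial.coe_one,
          Polynomial.coe_X, ← hS]
        linear_combination (-(B : PowerSeries ℂ)) * h
      have h3 : (B - (1 - X) * A : ℂ[X]).coeff 0 = 0 := by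
        rw [← Polynomial.coeff_coe, h2, PowerSeries.coeff_zero_X_mul]
      obtain ⟨A', hA'⟩ := X_dvd_iff.2 h3
      have h4 : (B : PowerSeries ℂ) * S' = A' := by
        refine mul_left_cancel₀ PowerSeries.X_ne_zero ?_
        rw [← h2, hA', Polynomial.coe_mul, Polynomial.coe_X]
      refine red S' A' B hB h4 T₀ m hd ?_
      intro h5
      have h6 := congrArg (Polynomial.eval T₀) hA'
      rw [eval_sub, eval_mul, eval_mul, eval_sub, eval_one, eval_X, hBT, h5, mul_zero, zero_sub,
        neg_eq_zero, mul_eq_zero] at h6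
      rcases h6 with h6 | h6
      · exact hT1 (sub_eq_zero.1 h6).symm
      · exact eval_ne hcop hBT h6

end Pool.Agent.Helper82.HG.PIG
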